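import Pool.Agent.Y105.HG.Fun

/-!
# MP_3d1733_an, Q1: the Haar system is 1-greedy in an equivalent norm of `L_p[0,1]`

For every `1 < p < ∞`, with real or complex scalars, there is a norm on `L_p[0,1]` equivalent to
`‖·‖_p` with respect to which the Haar system is 1-greedy.
-/

set_option autoImplicit false

namespace Pool.Agent.Results.MP_3d1733_an.OneGreedyRenorming

open Pool.Agent.Y105.HG

/-- `𝕜` is `ℝ` or `ℂ` and `1 < p < ∞`.  `haarp p i` is the Haar function `h_i` normalised in `L_p`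
(`i = none`: the constant `1`; `i = some ⟨n, k⟩`: the Haar function `|I| ^ (-1/p) (1_{I⁻} - 1_{I⁺})` of
`I = [k / 2 ^ n, (k + 1) / 2 ^ n)`) and `haarCoef p i f = (∫ f h_i) / (∫ h_i²)` is the coefficient of
`f`.  There is a norm `N` on `L_p[0,1]`, equivalent to `‖·‖_p`, with `N (f - G_A f) ≤ N (f - g)` for
every `f`, every greedy set `A` of `f` and every `g = ∑_{i ∈ B} b_i h_i` with `|B| ≤ |A|`. -/
theorem result (𝕜 : Type) [RCLike 𝕜] (p : ℝ) (hp : 1 < p) :
    HaarSystem 𝕜 p ∧ ∃ N : (ℝ → 𝕜) → ℝ, EquivNorm p N ∧ OneGreedy p N :=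
  ⟨haarSystem 𝕜 p hp, mainFun 𝕜 p hp⟩

end Pool.Agent.Results.MP_3d1733_an.OneGreedyRenorming
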